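import Pool.Agent.Helper87S.Conn2

set_option autoImplicit false
set_option linter.unusedSectionVars false

/-!
Complete graphs: the Hamilton cycles of the zigzag construction, as sets of edges `x y` with
`x + y = c` or `x + y = c + 1` in `ZMod N`, where `N + 1` is the number of vertices.
-/

namespace Pool.Agent.Helper87S

open Finset
open Pool.Agent.H126R2.CDC (MGraph)
open Pool.Agent.H126R2.NC (InIntCone)
open Pool.Agent.TH399.CC (bdry)

/-- the sum of two vertices, where the vertex `none` counts as the other vertex -/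
def gs {N : ℕ} : Option (ZMod N) → Option (ZMod N) → ZMod N
  | some x, some y => x + y
  | some x, none => x + x
  | none, some y => y + y
  | none, none => 0

lemma gs_comm {N : ℕ} (x y : Option (ZMod N)) : gs x y = gs y x := by
  cases x <;> cases y <;> simp [gs, add_comm]

variable {V E : Type} [Fintype V] [DecidableEq V] [Fintype E] [DecidableEq E]

/-- the sum of the ends of an edge -/
def sg {N : ℕ} (G : MGraph V E) (φ : V → Option (ZMod N)) (e : E) : ZMod N :=
  Sym2.lift ⟨fun x y => gs (φ x) (φ y), fun x y => gs_comm _ _⟩ (G.ends e)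

lemma sg_eq {N : ℕ} (G : MGraph V E) (φ : V → Option (ZMod N)) {e : E} {x y : V}
    (h : G.ends e = s(x, y)) : sg G φ e = gs (φ x) (φ y) := by
  unfold sg
  rw [h]
  rfl

/-- the Hamilton cycles -/
def Yc {N : ℕ} (G : MGraph V E) (φ : V → Option (ZMod N)) (c : ZMod N) : Finset E :=
  univ.filter fun e => sg G φ e = c ∨ sg G φ e = c + 1

section

variable {N : ℕ} (G : MGraph V E) (φ : V ≃ Option (ZMod N))
  (hG : ∀ x y, x ≠ y → ∃ e, G.ends e = s(x, y)) (hinj : Function.Injective G.ends)
  (hloop : ∀ e x, G.ends e ≠ s(x, x))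

include hG hinj hloop

lemma uniq (w : V) (x : ZMod N) (hw : φ w = some x) (d : ZMod N) :
    ∃ e, w ∈ G.ends e ∧ sg G φ e = d ∧ ∀ f, w ∈ G.ends f → sg G φ f = d → f = e := by
  -- the other end
  obtain ⟨u, hu⟩ : ∃ u, φ u = if d - x = x then none else some (d - x) := φ.surjective _
  have huw : w ≠ u := by
    rintro rfl
    rw [hw] at hu
    split_ifs at hu with h
    exact h (Option.some.inj hu).symm
  have hgs : gs (φ w) (φ u) = d := by
    rw [hw, hu]
    split_ifs with h
    · show x + x = d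
      nth_rewrite 1 [← h]
      ring
    · show x + (d - x) = d
      ring
  obtain ⟨e, he⟩ := hG w u huw
  refine ⟨e, by rw [he]; simp, by rw [sg_eq G φ he, hgs], fun f hf hfd => ?_⟩
  obtain ⟨t, ht⟩ := Sym2.mem_iff_exists.1 hf
  rw [sg_eq G φ ht] at hfd
  apply hinj
  rw [he, ht]
  congr 1
  -- `t = u`
  have htw : t ≠ w := by
    rintro rfl
    exact hloop f t ht
  apply φ.injective
  rw [hu]
  have h1 : φ t ≠ some x := fun h => htw (φ.injective (h.trans hw.symm))
  rw [hw] at hfd
  cases hφ : φ t with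
  | none =>
    rw [hφ] at hfd
    have h2 : x + x = d := hfd
    rw [if_pos]
    rw [← h2]
    ring
  | some y =>
    rw [hφ] at hfd h1
    have h2 : x + y = d := hfd
    have h3 : d - x = y := by
      rw [← h2]
      ring
    rw [h3, if_neg]
    rintro rfl
    exact h1 rfl

lemma deg_Yc (hN : (1 : ZMod N) ≠ 0) (c : ZMod N) (w : V) (x : ZMod N) (hw : φ w = some x) :
    G.deg (Yc G φ c) w = 2 := by
  obtain ⟨e, he1, he2, he3⟩ := uniq G φ hG hinj hloop w x hw c
  obtain ⟨f, hf1, hf2, hf3⟩ := uniq G φ hG hinj hloop w x hw (c + 1)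
  have hef : e ≠ f := by
    rintro rfl
    rw [he2] at hf2
    apply hN
    exact (left_eq_add.1 hf2)
  have h1 : (Yc G φ c).filter (fun e => w ∈ G.ends e) = {e, f} := by
    ext g
    simp only [Yc, mem_filter, mem_univ, true_and, mem_insert, mem_singleton]
    constructor
    · rintro ⟨h | h, hg⟩
      · exact Or.inl (he3 g hg h)
      · exact Or.inr (hf3 g hg h)
    · rintro (rfl | rfl)
      · exact ⟨Or.inl he2, he1⟩
      · exact ⟨Or.inr hf2, hf1⟩
  have h2 : (Yc G φ c).filter (fun e => G.ends e = s(w, w)) = ∅ := by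
    rw [Finset.filter_eq_empty_iff]
    intro g _ hg
    exact hloop g w hg
  unfold MGraph.deg
  rw [h1, h2, Finset.card_pair hef, Finset.card_empty]

lemma even_Yc (hN : (1 : ZMod N) ≠ 0) (c : ZMod N) : G.IsEven (Yc G φ c) := by
  intro w
  cases hw : φ w with
  | some x =>
    rw [deg_Yc G φ hG hinj hloop hN c w x hw]
    exact even_two
  | none =>
    -- the sum of all degrees is even
    have h1 : ∑ v, G.deg (Yc G φ c) v = 2 * (Yc G φ c).card := by
      simp_rw [G.deg_eq_sum]
      rw [Finset.sum_comm]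
      simp_rw [G.sum_ep]
      rw [Finset.sum_const, smul_eq_mul, mul_comm]
    rw [← Finset.add_sum_erase _ _ (mem_univ w)] at h1
    have h2 : ∑ v ∈ univ.erase w, G.deg (Yc G φ c) v = 2 * (univ.erase w).card := by
      rw [mul_comm, ← smul_eq_mul, ← Finset.sum_const]
      refine Finset.sum_congr rfl fun v hv => ?_
      cases hv' : φ v with
      | some x => exact deg_Yc G φ hG hinj hloop hN c v x hv'
      | none => exact absurd (φ.injective (hv'.trans hw.symm)) (Finset.ne_of_mem_erase hv)
    rw [h2] at h1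
    rw [Nat.even_iff]
    omega

lemma con_Yc (c : ZMod N) (hc : ∃ x : ZMod N, x + x = c ∨ x + x = c + 1) :
    Con G (Yc G φ c) := by
  intro B hB hB'
  by_contra hcon
  have h0 : bdry G (Yc G φ c) B = ∅ := by
    rw [← Finset.card_eq_zero]
    omega
  -- the ends of an edge of `Yc` are both in `B` or both not in `B`
  have key : ∀ x y : V, (gs (φ x) (φ y) = c ∨ gs (φ x) (φ y) = c + 1) → x ∈ B → y ∈ B := by
    intro x y hxy hx
    by_contra hy
    have hne : x ≠ y := by
      rintro rfl
      exact hy hx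
    obtain ⟨e, he⟩ := hG x y hne
    have h1 : e ∈ bdry G (Yc G φ c) B := by
      rw [bdry, mem_filter, Yc, mem_filter, sg_eq G φ he]
      refine ⟨⟨mem_univ _, hxy⟩, ⟨x, ?_, hx⟩, y, ?_, hy⟩
      · rw [he]; simp
      · rw [he]; simp
    rw [h0] at h1
    exact absurd h1 (Finset.notMem_empty _)
  have step : ∀ z : ZMod N, φ.symm (some z) ∈ B → φ.symm (some (z + 1)) ∈ B := by
    intro z hz
    have h1 : φ.symm (some (c - z)) ∈ B := by
      refine key _ _ (Or.inl ?_) hz
      rw [Equiv.apply_symm_apply, Equiv.apply_symm_apply]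
      show z + (c - z) = c
      ring
    refine key _ _ (Or.inr ?_) h1
    rw [Equiv.apply_symm_apply, Equiv.apply_symm_apply]
    show c - z + (z + 1) = c + 1
    ring
  have all : ∀ z : ZMod N, φ.symm (some z) ∈ B → ∀ n : ℕ, φ.symm (some (z + n)) ∈ B := by
    intro z hz n
    induction n with
    | zero => simpa using hz
    | succ n ih =>
      have := step _ ih
      rw [add_assoc] at this
      push_cast
      exact this
  obtain ⟨x0, hx0⟩ := hc
  have hnone : φ.symm none ∈ B ↔ φ.symm (some x0) ∈ B := by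
    constructor
    · intro h
      refine key _ _ ?_ h
      rw [Equiv.apply_symm_apply, Equiv.apply_symm_apply]
      exact hx0
    · intro h
      refine key _ _ ?_ h
      rw [Equiv.apply_symm_apply, Equiv.apply_symm_apply]
      exact hx0
  have hNe : ∀ z y : ZMod N, φ.symm (some z) ∈ B → φ.symm (some y) ∈ B := by
    intro z y hz
    rcases Nat.eq_zero_or_pos N with hN0 | hN0
    · -- `V` is finite
      subst hN0
      exact absurd (Finite.of_injective (fun z : ℤ => φ.symm (some (z : ZMod 0)))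
        (fun a b h => Option.some.inj (φ.symm.injective h))) (not_finite_iff_infinite.2
          (inferInstance : Infinite ℤ))
    · have : NeZero N := ⟨hN0.ne'⟩
      have h1 := all z hz (y - z).val
      rw [ZMod.natCast_zmod_val] at h1
      have h2 : z + (y - z) = y := by ring
      rwa [h2] at h1
  -- so everything is in `B`
  have hex : ∃ z, φ.symm (some z) ∈ B := by
    obtain ⟨w, hw⟩ := hB
    cases hφ : φ w with
    | some z =>
      refine ⟨z, ?_⟩
      rw [← hφ, Equiv.symm_apply_apply]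
      exact hw
    | none =>
      refine ⟨x0, ?_⟩
      rw [← hnone, ← hφ, Equiv.symm_apply_apply]
      exact hw
  obtain ⟨z, hz⟩ := hex
  apply hB'
  rw [Finset.eq_univ_iff_forall]
  intro w
  cases hφ : φ w with
  | some y =>
    have := hNe z y hz
    rwa [← hφ, Equiv.symm_apply_apply] at this
  | none =>
    have := hnone.2 (hNe z x0 hz)
    rwa [← hφ, Equiv.symm_apply_apply] at this

end

/-- twice some element is `c` or `c + 1` -/
lemma exists_half (N : ℕ) [NeZero N] (c : ZMod N) : ∃ x : ZMod N, x + x = c ∨ x + x = c + 1 := by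
  rcases Nat.even_or_odd c.val with ⟨m, hm⟩ | ⟨m, hm⟩
  · refine ⟨m, Or.inl ?_⟩
    rw [← Nat.cast_add, ← hm, ZMod.natCast_zmod_val]
  · refine ⟨(m + 1 : ℕ), Or.inr ?_⟩
    have h : (m + 1) + (m + 1) = c.val + 1 := by omega
    rw [← Nat.cast_add, h, Nat.cast_add, ZMod.natCast_zmod_val, Nat.cast_one]

/-- every edge is in exactly two of the cycles -/
lemma count_Yc {N : ℕ} [NeZero N] (G : MGraph V E) (φ : V → Option (ZMod N))
    (hN : (1 : ZMod N) ≠ 0) (e : E) :
    (univ.filter (fun c : ZMod N => e ∈ Yc G φ c)).card = 2 := by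
  have h : univ.filter (fun c : ZMod N => e ∈ Yc G φ c) = {sg G φ e, sg G φ e - 1} := by
    ext c
    simp only [Yc, mem_filter, mem_univ, true_and, mem_insert, mem_singleton]
    constructor
    · rintro (h | h)
      · exact Or.inl h.symm
      · right
        rw [h]
        ring
    · rintro (h | h)
      · exact Or.inl h.symm
      · right
        rw [h]
        ring
  rw [h, Finset.card_pair]
  intro h
  apply hN
  have h2 : sg G φ e - (sg G φ e - 1) = 0 := sub_eq_zero.2 h
  rw [← h2]
  ring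

/-- if `N` is even, every edge is in exactly one of the cycles with even parameter -/
lemma count_even {M : ℕ} [NeZero M] (G : MGraph V E) (φ : V → Option (ZMod (2 * M))) (e : E) :
    (univ.filter (fun i : Fin M => e ∈ Yc G φ ((2 * i.1 : ℕ) : ZMod (2 * M)))).card = 1 := by
  have : NeZero (2 * M) := ⟨mul_ne_zero two_ne_zero (NeZero.ne M)⟩
  obtain ⟨s, hs⟩ : ∃ s, s = sg G φ e := ⟨_, rfl⟩
  have hsv : s.val < 2 * M := ZMod.val_lt s
  rw [Finset.card_eq_one]
  refine ⟨⟨s.val / 2, by omega⟩, ?_⟩
  ext i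
  simp only [Yc, mem_filter, mem_univ, true_and, mem_singleton, ← hs]
  have hi := i.2
  have h1 : s = ((2 * i.1 : ℕ) : ZMod (2 * M)) ↔ s.val = 2 * i.1 := by
    constructor
    · intro h
      rw [h, ZMod.val_natCast, Nat.mod_eq_of_lt (by omega)]
    · intro h
      rw [← h, ZMod.natCast_zmod_val]
  have h2 : s = ((2 * i.1 : ℕ) : ZMod (2 * M)) + 1 ↔ s.val = 2 * i.1 + 1 := by
    have h3 : ((2 * i.1 : ℕ) : ZMod (2 * M)) + 1 = ((2 * i.1 + 1 : ℕ) : ZMod (2 * M)) := by
      push_cast
      ring
    rw [h3]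
    constructor
    · intro h
      rw [h, ZMod.val_natCast, Nat.mod_eq_of_lt (by omega)]
    · intro h
      rw [← h, ZMod.natCast_zmod_val]
  rw [h1, h2]
  constructor
  · intro h
    apply Fin.ext
    show i.1 = s.val / 2
    omega
  · intro h
    have : i.1 = s.val / 2 := congrArg Fin.val h
    omega

/-- `G` is the complete graph on its vertex set -/
def Compl (G : MGraph V E) : Prop :=
  Function.Injective G.ends ∧ (∀ e x, G.ends e ≠ s(x, x)) ∧
    ∀ x y, x ≠ y → ∃ e, G.ends e = s(x, y)

/-- complete graphs, even weightings -/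
theorem complete_even (G : MGraph V E) (hG : Compl G) (n : ℕ) (hn : Fintype.card V = n)
    (hn3 : 3 ≤ n) (k : ℕ) (p : E → ℕ) (hp : ∀ e, Even (p e)) (h1 : ∀ e, 2 * k ≤ p e)
    (h2 : ∀ e, p e ≤ 2 * (n - 2) * k) : InIntCone G p := by
  classical
  obtain ⟨N, rfl⟩ : ∃ N, n = N + 1 := ⟨n - 1, by omega⟩
  have : NeZero N := ⟨by omega⟩
  have hN1 : (1 : ZMod N) ≠ 0 := by
    have : Fact (1 < N) := ⟨by omega⟩
    exact one_ne_zero
  have hcard : Fintype.card V = Fintype.card (Option (ZMod N)) := by
    rw [hn, Fintype.card_option, ZMod.card]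
  let φ : V ≃ Option (ZMod N) := Fintype.equivOfCardEq hcard
  refine copies_cover G (fun c : ZMod N => Yc G φ c)
    (fun c => ⟨even_Yc G φ hG.2.2 hG.1 hG.2.1 hN1 c,
      con_Yc G φ hG.2.2 hG.1 hG.2.1 c (exists_half N c)⟩) k p (fun e => ?_) (fun e => ?_)
    (fun e => ?_)
  · rw [count_Yc G φ hN1 e]
    obtain ⟨m, hm⟩ := hp e
    omega
  · rw [count_Yc G φ hN1 e]
    exact h1 e
  · rw [count_Yc G φ hN1 e, ZMod.card]
    have h3 := h2 e
    obtain ⟨M, rfl⟩ : ∃ M, N = M + 1 := ⟨N - 1, by omega⟩
    have h4 : 2 * ((M + 1) * k) = 2 * (M + 1 + 1 - 2) * k + 2 * k := by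
      rw [show M + 1 + 1 - 2 = M by omega]
      ring
    rw [h4]
    omega

/-- complete graphs of odd order, weightings of either parity -/
theorem complete_odd (G : MGraph V E) (hG : Compl G) (n : ℕ) (hn : Fintype.card V = n)
    (hn3 : 3 ≤ n) (hodd : n % 2 = 1) (k : ℕ) (p : E → ℕ) (hp : ∀ e, p e % 2 = k % 2)
    (h1 : ∀ e, k ≤ p e) (h2 : ∀ e, p e ≤ (n - 2) * k) : InIntCone G p := by
  classical
  obtain ⟨M, rfl⟩ : ∃ M, n = 2 * M + 1 := ⟨n / 2, by omega⟩
  have : NeZero M := ⟨by omega⟩
  have : NeZero (2 * M) := ⟨by omega⟩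
  have hN1 : (1 : ZMod (2 * M)) ≠ 0 := by
    have : Fact (1 < 2 * M) := ⟨by omega⟩
    exact one_ne_zero
  have hcard : Fintype.card V = Fintype.card (Option (ZMod (2 * M))) := by
    rw [hn, Fintype.card_option, ZMod.card]
  let φ : V ≃ Option (ZMod (2 * M)) := Fintype.equivOfCardEq hcard
  refine copies_cover G (fun i : Fin M => Yc G φ ((2 * i.1 : ℕ) : ZMod (2 * M)))
    (fun c => ⟨even_Yc G φ hG.2.2 hG.1 hG.2.1 hN1 _,
      con_Yc G φ hG.2.2 hG.1 hG.2.1 _ (exists_half _ _)⟩) k p (fun e => ?_) (fun e => ?_)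
    (fun e => ?_)
  · rw [count_even G φ e, one_mul]
    exact hp e
  · rw [count_even G φ e, one_mul]
    exact h1 e
  · rw [count_even G φ e, Fintype.card_fin, one_mul]
    have h3 := h2 e
    obtain ⟨M', rfl⟩ : ∃ M', M = M' + 1 := ⟨M - 1, by omega⟩
    have h4 : 2 * ((M' + 1) * k) = (2 * (M' + 1) + 1 - 2) * k + k := by
      rw [show 2 * (M' + 1) + 1 - 2 = 2 * M' + 1 by omega]
      ring
    rw [h4]
    omega

end Pool.Agent.Helper87S
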