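import Pool.Agent.Helper87S.Main

set_option autoImplicit false
set_option linter.unusedSectionVars false

/-!
Circuit covers from connected spanning even subgraphs.
-/

namespace Pool.Agent.Helper87S

open Finset
open Pool.Agent.Helper879.ECD (F2 IsFlow f2_add_self f2_cases cn)
open Pool.Agent.H126R2.CDC (MGraph isFl_iff)
open Pool.Agent.H126R2.NC (InIntCone)
open Pool.Agent.TH399.CC (isFlow_add exists_flow_on bdry)

variable {V E : Type} [Fintype V] [DecidableEq V] [Fintype E] [DecidableEq E]

/-- flows with prescribed values off a connected spanning subgraph -/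
lemma flow_off (G : MGraph V E) (v : E × Bool → V)
    (hv : ∀ e, G.ends e = s(v (e, false), v (e, true))) (Y : Finset E)
    (hY : ∀ B : Finset V, B.Nonempty → B ≠ univ → 1 ≤ (bdry G Y B).card) (D : Finset E) :
    ∃ Z : E → F2, IsFlow (fun e => v (e, false)) (fun e => v (e, true)) Z ∧
      ∀ e, e ∉ Y → Z e = if e ∈ D then 1 else 0 := by
  classical
  obtain ⟨Z, hZ, hZD⟩ := exists_flow_on (fun e => v (e, false)) (fun e => v (e, true))
    (univ \ Y) D (by
      intro c hc
      have h1 : ∀ x y : V, c x = c y := by
        by_contra hcon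
        push Not at hcon
        obtain ⟨x, y, hxy⟩ := hcon
        have h2 : ∃ z, z ≠ y ∧ c z ≠ c y := ⟨x, fun h => hxy (by rw [h]), hxy⟩
        have h3 := hY (univ.filter fun z => c z = c y) ⟨y, by simp⟩ (by
          intro h
          have : x ∈ (univ.filter fun z => c z = c y) := by rw [h]; exact mem_univ x
          rw [mem_filter] at this
          exact hxy this.2)
        obtain ⟨e, he⟩ := Finset.card_pos.1 h3
        rw [bdry, mem_filter] at he
        obtain ⟨heY, ⟨p, hp1, hp2⟩, q, hq1, hq2⟩ := he
        have h4 := hc e (by simp [heY])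
        rw [mem_filter] at hp2 hq2
        rw [hv e, Sym2.mem_iff] at hp1 hq1
        have h5 : c (v (e, false)) = c (v (e, true)) := by
          have h6 : c (v (e, false)) + c (v (e, true)) + c (v (e, true)) = c (v (e, true)) := by
            show c (v (e, false)) + c (v (e, true)) + c (v (e, true)) = c (v (e, true))
            rw [show c (v (e, false)) + c (v (e, true)) = 0 from h4, zero_add]
          rwa [add_assoc, f2_add_self, add_zero] at h6
        apply hq2
        refine ⟨mem_univ _, ?_⟩
        rw [← hp2.2]
        rcases hp1 with h | h <;> rcases hq1 with h' | h' <;> rw [h, h'] <;>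
          first | rfl | exact h5 | exact h5.symm
      apply Finset.sum_eq_zero
      intro e _
      show c (v (e, false)) + c (v (e, true)) = 0
      rw [h1 (v (e, false)) (v (e, true)), f2_add_self])
  exact ⟨Z, hZ, fun e he => hZD e (by simp [he])⟩

/-- The main lemma: weightings from connected spanning even subgraphs. -/
theorem conn_cover (G : MGraph V E) {ι : Type} [Fintype ι] [DecidableEq ι] (Y : ι → Finset E)
    (hev : ∀ j, G.IsEven (Y j))
    (hY : ∀ j, ∀ B : Finset V, B.Nonempty → B ≠ univ → 1 ≤ (bdry G (Y j) B).card) (p : E → ℕ)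
    (hp : ∀ e, p e % 2 = (univ.filter (fun j => e ∈ Y j)).card % 2)
    (hlo : ∀ e, (univ.filter (fun j => e ∈ Y j)).card ≤ p e)
    (hhi : ∀ e, p e + (univ.filter (fun j => e ∈ Y j)).card ≤ 2 * Fintype.card ι) :
    InIntCone G p := by
  classical
  obtain ⟨v, hv⟩ := G.exists_halves
  -- the sets of indices
  have h1 : ∀ e, ∃ S : Finset ι, (∀ j ∈ S, e ∉ Y j) ∧
      p e = (univ.filter (fun j => e ∈ Y j)).card + 2 * S.card := by
    intro e
    have h2 : (univ.filter (fun j => e ∈ Y j)).card + (univ.filter (fun j => e ∉ Y j)).card =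
        Fintype.card ι := Finset.card_filter_add_card_filter_not _
    have h3 := hp e
    have h4 := hlo e
    have h5 := hhi e
    obtain ⟨S, hS1, hS2⟩ := Finset.exists_subset_card_eq
      (s := univ.filter (fun j => e ∉ Y j))
      (n := (p e - (univ.filter (fun j => e ∈ Y j)).card) / 2) (by omega)
    refine ⟨S, fun j hj => (mem_filter.1 (hS1 hj)).2, ?_⟩
    rw [hS2]
    omega
  choose S hS1 hS2 using h1
  choose Z hZ hZD using fun j => flow_off G v hv (Y j) (hY j) (univ.filter fun e => j ∈ S e)
  have hF : Fam (fun e => v (e, false)) (fun e => v (e, true)) (Fintype.card (ι × Bool)) p := by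
    refine fam_of_index (ι := ι × Bool) rfl
      (fun t e => Z t.1 e + if t.2 = true ∧ e ∈ Y t.1 then 1 else 0) ?_ p ?_
    · rintro ⟨j, t⟩
      cases t
      · simpa using hZ j
      · refine isFlow_add (hZ j) ?_
        have h2 := (isFl_iff v _).1 ((G.isEven_iff v hv (Y j)).1 (hev j))
        simpa using h2
    · intro e
      rw [Fintype.sum_prod_type]
      have h2 : ∀ j, ∑ t : Bool, (if Z j e + (if t = true ∧ e ∈ Y j then (1 : F2) else 0) = 1
          then 1 else 0) = (if e ∈ Y j then 1 else 0) + 2 * (if j ∈ S e then 1 else 0) := by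
        intro j
        rw [Fintype.sum_bool]
        by_cases he : e ∈ Y j
        · have h3 : j ∉ S e := fun h => hS1 e j h he
          rcases f2_cases (Z j e) with hz | hz
          · simp [he, h3, hz]
          · simp [he, h3, hz, f2_add_self]
        · have h4 := hZD j e he
          by_cases h3 : j ∈ S e
          · simp [he, h3, h4]
          · simp [he, h3, h4]
      rw [Finset.sum_congr rfl fun j _ => h2 j, Finset.sum_add_distrib, ← Finset.mul_sum, hS2 e]
      simp
  exact hF.cover G v hv

end Pool.Agent.Helper87S
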