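import Pool.Agent.Helper87S.Conn

set_option autoImplicit false
set_option linter.unusedSectionVars false

/-!
Corollaries of `conn_cover`: families with constant multiplicity, edge-disjoint connected spanning
subgraphs.
-/

namespace Pool.Agent.Helper87S

open Finset
open Pool.Agent.Helper879.ECD (F2 IsFlow f2_add_self f2_cases cn)
open Pool.Agent.H126R2.CDC (MGraph isFl_iff)
open Pool.Agent.H126R2.NC (InIntCone)
open Pool.Agent.TH399.CC (isFlow_add exists_flow_on bdry isEven_of_isFlow)

variable {V E : Type} [Fintype V] [DecidableEq V] [Fintype E] [DecidableEq E]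

/-- connected spanning even subgraph -/
def CSE (G : MGraph V E) (Y : Finset E) : Prop :=
  G.IsEven Y ∧ ∀ B : Finset V, B.Nonempty → B ≠ univ → 1 ≤ (bdry G Y B).card

lemma count_mul {ι : Type} [Fintype ι] [DecidableEq ι] (Y : ι → Finset E) (k : ℕ) (e : E) :
    (univ.filter (fun j : ι × Fin k => e ∈ Y j.1)).card =
      (univ.filter (fun j => e ∈ Y j)).card * k := by
  have h : univ.filter (fun j : ι × Fin k => e ∈ Y j.1) =
      (univ.filter (fun j => e ∈ Y j)) ×ˢ (univ : Finset (Fin k)) := by
    ext j
    simp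
  rw [h, card_product, card_univ, Fintype.card_fin]

/-- `k` copies of a family -/
theorem copies_cover (G : MGraph V E) {ι : Type} [Fintype ι] [DecidableEq ι] (Y : ι → Finset E)
    (hY : ∀ j, CSE G (Y j)) (k : ℕ) (p : E → ℕ)
    (hp : ∀ e, p e % 2 = ((univ.filter (fun j => e ∈ Y j)).card * k) % 2)
    (hlo : ∀ e, (univ.filter (fun j => e ∈ Y j)).card * k ≤ p e)
    (hhi : ∀ e, p e + (univ.filter (fun j => e ∈ Y j)).card * k ≤ 2 * (Fintype.card ι * k)) :
    InIntCone G p := by
  refine conn_cover G (fun j : ι × Fin k => Y j.1) (fun j => (hY j.1).1) (fun j => (hY j.1).2) p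
    (fun e => ?_) (fun e => ?_) (fun e => ?_)
  · rw [count_mul]
    exact hp e
  · rw [count_mul]
    exact hlo e
  · rw [count_mul, Fintype.card_prod, Fintype.card_fin]
    exact hhi e

/-- the support of a flow -/
lemma cse_of_flow (G : MGraph V E) (v : E × Bool → V)
    (hv : ∀ e, G.ends e = s(v (e, false), v (e, true))) (Z : E → F2)
    (hZ : IsFlow (fun e => v (e, false)) (fun e => v (e, true)) Z) (T : Finset E)
    (hT : ∀ B : Finset V, B.Nonempty → B ≠ univ → 1 ≤ (bdry G T B).card)
    (h : ∀ e ∈ T, Z e = 1) : CSE G (univ.filter fun e => Z e = 1) := by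
  refine ⟨isEven_of_isFlow G v hv Z hZ, fun B hB hB' => ?_⟩
  refine (hT B hB hB').trans (Finset.card_le_card ?_)
  intro e he
  rw [bdry, mem_filter] at he ⊢
  exact ⟨by rw [mem_filter]; exact ⟨mem_univ _, h e he.1⟩, he.2⟩

/-- The systems: `r` connected spanning even subgraphs inside `U`, every edge in none or in exactly
two of them. -/
def Sys (G : MGraph V E) (r : ℕ) (U : Finset E) : Prop :=
  ∃ Y : Fin r → Finset E, (∀ j, CSE G (Y j)) ∧ (∀ j, Y j ⊆ U) ∧
    ∀ e, (univ.filter (fun j => e ∈ Y j)).card = 0 ∨ (univ.filter (fun j => e ∈ Y j)).card = 2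

def Con (G : MGraph V E) (T : Finset E) : Prop :=
  ∀ B : Finset V, B.Nonempty → B ≠ univ → 1 ≤ (bdry G T B).card

lemma card_filter_sum (n : ℕ) (Q : Fin n → Prop) [DecidablePred Q] :
    (univ.filter Q).card = ∑ i, if Q i then 1 else 0 := by
  rw [Finset.card_filter]

lemma sys_two (G : MGraph V E) (A B : Finset E) (hA : Con G A) (hB : Con G B)
    (hAB : Disjoint A B) : Sys G 2 (A ∪ B) := by
  classical
  obtain ⟨v, hv⟩ := G.exists_halves
  obtain ⟨Z, hZ, hZA⟩ := flow_off G v hv B hB A
  have h1 : ∀ e ∈ A, Z e = 1 := by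
    intro e he
    rw [hZA e (Finset.disjoint_left.1 hAB he), if_pos he]
  refine ⟨fun _ => univ.filter fun e => Z e = 1, fun _ => cse_of_flow G v hv Z hZ A hA h1,
    fun _ e he => ?_, fun e => ?_⟩
  · rw [mem_filter] at he
    rw [mem_union]
    by_cases hB' : e ∈ B
    · exact Or.inr hB'
    · left
      by_contra hA'
      rw [hZA e hB', if_neg hA'] at he
      exact zero_ne_one he.2
  · by_cases he : e ∈ univ.filter fun e => Z e = 1
    · right
      rw [card_filter_sum]
      simp only [he, if_true]
      rfl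
    · left
      rw [card_filter_sum]
      simp only [he, if_false]
      rfl

lemma sys_three (G : MGraph V E) (A B C : Finset E) (hA : Con G A) (hB : Con G B) (hC : Con G C)
    (hAB : Disjoint A B) (hAC : Disjoint A C) (hBC : Disjoint B C) : Sys G 3 (A ∪ B ∪ C) := by
  classical
  obtain ⟨v, hv⟩ := G.exists_halves
  obtain ⟨X, hX, hXA⟩ := flow_off G v hv C hC (A ∪ B)
  obtain ⟨Z, hZ, hZA⟩ := flow_off G v hv C hC A
  have hXZ := isFlow_add hX hZ
  have a1 : ∀ e ∈ A, X e = 1 ∧ Z e = 1 := by
    intro e he
    have h := Finset.disjoint_left.1 hAC he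
    rw [hXA e h, hZA e h, if_pos he, if_pos (mem_union_left _ he)]
    exact ⟨rfl, rfl⟩
  have b1 : ∀ e ∈ B, X e = 1 ∧ Z e = 0 := by
    intro e he
    have h := Finset.disjoint_left.1 hBC he
    have h' : e ∉ A := fun h' => Finset.disjoint_left.1 hAB h' he
    rw [hXA e h, hZA e h, if_neg h', if_pos (mem_union_right _ he)]
    exact ⟨rfl, rfl⟩
  have o1 : ∀ e, e ∉ A ∪ B ∪ C → X e = 0 ∧ Z e = 0 := by
    intro e he
    simp only [mem_union, not_or] at he
    rw [hXA e he.2, hZA e he.2, if_neg he.1.1, if_neg (by simp [he.1.1, he.1.2])]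
    exact ⟨rfl, rfl⟩
  refine ⟨![univ.filter fun e => X e = 1, univ.filter fun e => Z e = 1,
    univ.filter fun e => X e + Z e = 1], fun j => ?_, fun j e he => ?_, fun e => ?_⟩
  · fin_cases j
    · exact cse_of_flow G v hv X hX A hA fun e he => (a1 e he).1
    · exact cse_of_flow G v hv Z hZ A hA fun e he => (a1 e he).2
    · exact cse_of_flow G v hv _ hXZ B hB fun e he => by
        show X e + Z e = 1
        rw [(b1 e he).1, (b1 e he).2, add_zero]
  · by_contra hcon
    obtain ⟨h1, h2⟩ := o1 e hcon
    fin_cases j <;> simp [h1, h2] at he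
  · rw [card_filter_sum, Fin.sum_univ_three]
    simp only [Matrix.cons_val_zero, Matrix.cons_val_one, Matrix.cons_val_two, Matrix.head_cons,
      Matrix.tail_cons, Matrix.cons_val, mem_filter, mem_univ, true_and]
    rcases f2_cases (X e) with h | h <;> rcases f2_cases (Z e) with h' | h' <;> rw [h, h'] <;>
      simp [f2_add_self]

lemma sys_add (G : MGraph V E) {r s : ℕ} {U W : Finset E} (h : Sys G r U) (h' : Sys G s W)
    (hUW : Disjoint U W) : Sys G (r + s) (U ∪ W) := by
  classical
  obtain ⟨Y, hY1, hY2, hY3⟩ := h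
  obtain ⟨Z, hZ1, hZ2, hZ3⟩ := h'
  refine ⟨Fin.append Y Z, fun i => ?_, fun i => ?_, fun e => ?_⟩
  · refine Fin.addCases (fun i => ?_) (fun i => ?_) i
    · rw [Fin.append_left]; exact hY1 i
    · rw [Fin.append_right]; exact hZ1 i
  · refine Fin.addCases (fun i => ?_) (fun i => ?_) i
    · rw [Fin.append_left]; exact (hY2 i).trans subset_union_left
    · rw [Fin.append_right]; exact (hZ2 i).trans subset_union_right
  · have h1 : (univ.filter (fun j => e ∈ Fin.append Y Z j)).card =
        (univ.filter (fun j => e ∈ Y j)).card + (univ.filter (fun j => e ∈ Z j)).card := by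
      rw [card_filter_sum, card_filter_sum, card_filter_sum, Fin.sum_univ_add]
      simp only [Fin.append_left, Fin.append_right]
    rw [h1]
    by_cases he : e ∈ U
    · have h2 : (univ.filter (fun j => e ∈ Z j)).card = 0 := by
        rw [Finset.card_eq_zero, Finset.filter_eq_empty_iff]
        intro j _ hj
        exact Finset.disjoint_left.1 hUW he (hZ2 j hj)
      rw [h2, add_zero]
      exact hY3 e
    · have h2 : (univ.filter (fun j => e ∈ Y j)).card = 0 := by
        rw [Finset.card_eq_zero, Finset.filter_eq_empty_iff]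
        intro j _ hj
        exact he (hY2 j hj)
      rw [h2, zero_add]
      exact hZ3 e

/-- `r ≥ 2` edge-disjoint connected spanning subgraphs give a system of `r` members -/
lemma sys_of_disjoint (G : MGraph V E) : ∀ (r : ℕ), 2 ≤ r → ∀ (T : ℕ → Finset E),
    (∀ i < r, Con G (T i)) → (∀ i < r, ∀ j < r, i ≠ j → Disjoint (T i) (T j)) →
    Sys G r ((range r).biUnion T) := by
  intro r
  induction r using Nat.strong_induction_on with
  | _ r ih =>
    intro hr T h1 h2
    by_cases hr2 : r = 2
    · subst hr2
      have h := sys_two G (T 0) (T 1) (h1 0 (by omega)) (h1 1 (by omega))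
        (h2 0 (by omega) 1 (by omega) (by omega))
      have e : (range 2).biUnion T = T 0 ∪ T 1 := by
        ext x
        simp only [mem_biUnion, mem_range, mem_union]
        constructor
        · rintro ⟨i, hi, hx⟩
          interval_cases i
          · exact Or.inl hx
          · exact Or.inr hx
        · rintro (hx | hx)
          · exact ⟨0, by omega, hx⟩
          · exact ⟨1, by omega, hx⟩
      rw [e]
      exact h
    by_cases hr3 : r = 3
    · subst hr3
      have h := sys_three G (T 0) (T 1) (T 2) (h1 0 (by omega)) (h1 1 (by omega))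
        (h1 2 (by omega)) (h2 0 (by omega) 1 (by omega) (by omega))
        (h2 0 (by omega) 2 (by omega) (by omega)) (h2 1 (by omega) 2 (by omega) (by omega))
      have e : (range 3).biUnion T = T 0 ∪ T 1 ∪ T 2 := by
        ext x
        simp only [mem_biUnion, mem_range, mem_union]
        constructor
        · rintro ⟨i, hi, hx⟩
          interval_cases i
          · exact Or.inl (Or.inl hx)
          · exact Or.inl (Or.inr hx)
          · exact Or.inr hx
        · rintro ((hx | hx) | hx)
          · exact ⟨0, by omega, hx⟩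
          · exact ⟨1, by omega, hx⟩
          · exact ⟨2, by omega, hx⟩
      rw [e]
      exact h
    obtain ⟨s, rfl⟩ : ∃ s, r = s + 2 := ⟨r - 2, by omega⟩
    have h3 := ih s (by omega) (by omega) T (fun i hi => h1 i (by omega))
      (fun i hi j hj hij => h2 i (by omega) j (by omega) hij)
    have h4 := sys_two G (T s) (T (s + 1)) (h1 s (by omega)) (h1 (s + 1) (by omega))
      (h2 s (by omega) (s + 1) (by omega) (by omega))
    have h5 := sys_add G h3 h4 (by
      rw [Finset.disjoint_left]
      intro x hx hx'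
      rw [mem_biUnion] at hx
      obtain ⟨i, hi, hx⟩ := hx
      rw [mem_range] at hi
      rcases mem_union.1 hx' with h | h
      · exact Finset.disjoint_left.1 (h2 i (by omega) s (by omega) (by omega)) hx h
      · exact Finset.disjoint_left.1 (h2 i (by omega) (s + 1) (by omega) (by omega)) hx h)
    have e : (range (s + 2)).biUnion T = (range s).biUnion T ∪ (T s ∪ T (s + 1)) := by
      ext x
      simp only [mem_biUnion, mem_range, mem_union]
      constructor
      · rintro ⟨i, hi, hx⟩
        by_cases h6 : i < s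
        · exact Or.inl ⟨i, h6, hx⟩
        · right
          have : i = s ∨ i = s + 1 := by omega
          rcases this with rfl | rfl
          · exact Or.inl hx
          · exact Or.inr hx
      · rintro (⟨i, hi, hx⟩ | hx | hx)
        · exact ⟨i, by omega, hx⟩
        · exact ⟨s, by omega, hx⟩
        · exact ⟨s + 1, by omega, hx⟩
    rw [e]
    exact h5

/-- even weightings of bounded ratio on graphs with `r` edge-disjoint connected spanning
subgraphs -/
theorem disjoint_cover (G : MGraph V E) (r : ℕ) (hr : 2 ≤ r) (T : Fin r → Finset E)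
    (hT : ∀ i, Con G (T i)) (hd : ∀ i j, i ≠ j → Disjoint (T i) (T j)) (k : ℕ) (p : E → ℕ)
    (hp : ∀ e, Even (p e)) (h1 : ∀ e, 2 * k ≤ p e) (h2 : ∀ e, p e ≤ 2 * (r - 1) * k) :
    InIntCone G p := by
  obtain ⟨Y, hY1, -, hY3⟩ := sys_of_disjoint G r hr
    (fun i => if h : i < r then T ⟨i, h⟩ else ∅)
    (fun i hi => by simpa [hi] using hT ⟨i, hi⟩)
    (fun i hi j hj hij => by simpa [hi, hj] using hd ⟨i, hi⟩ ⟨j, hj⟩ (by simpa using hij))
  refine copies_cover G Y hY1 k p (fun e => ?_) (fun e => ?_) (fun e => ?_)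
  · obtain ⟨m, hm⟩ := hp e
    rcases hY3 e with h | h <;> rw [h] <;> omega
  · have := h1 e
    rcases hY3 e with h | h <;> rw [h] <;> omega
  · have h3 := h2 e
    obtain ⟨s, rfl⟩ : ∃ s, r = s + 1 := ⟨r - 1, by omega⟩
    rw [Fintype.card_fin]
    have h4 : 2 * ((s + 1) * k) = 2 * (s + 1 - 1) * k + 2 * k := by
      rw [Nat.add_sub_cancel]
      ring
    rw [h4]
    rcases hY3 e with h | h <;> rw [h] <;> omega

end Pool.Agent.Helper87S
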