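import Pool.Agent.TH399.CC.Main

set_option autoImplicit false
set_option linter.unusedSectionVars false

/-!
Families of exactly `n` flows over the field with two elements (that is, of `n` even subgraphs, some
of which may be empty) with prescribed multiplicities; the reflection of such a family in a flow.
-/

namespace Pool.Agent.Helper87S

open Finset
open Pool.Agent.Helper879.ECD (F2 IsFlow f2_add_self f2_cases cn)
open Pool.Agent.H126R2.CDC (MGraph T3 isFl_iff exists_double_cover)
open Pool.Agent.H126R2.NC (TC InIntCone countP_sum)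
open Pool.Agent.TH399.CC (isFlow_add isFlow_smul exists_flow_on cut_even exists_flow8_minus
  isEven_of_isFlow)

section fam

variable {W E : Type} [Fintype W] [DecidableEq W] [Fintype E] [DecidableEq E]

/-- `n` flows such that every edge `e` is used by exactly `w e` of them -/
def Fam (a b : E → W) (n : ℕ) (w : E → ℕ) : Prop :=
  ∃ y : Fin n → E → F2, (∀ i, IsFlow a b (y i)) ∧
    ∀ e, ∑ i, (if y i e = 1 then 1 else 0) = w e

variable {a b : E → W}

lemma Fam.congr {n : ℕ} {w w' : E → ℕ} (h : Fam a b n w) (hw : ∀ e, w e = w' e) :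
    Fam a b n w' := by
  rw [show w' = w from (funext hw).symm]
  exact h

lemma Fam.add {n m : ℕ} {w w' : E → ℕ} (h : Fam a b n w) (h' : Fam a b m w') :
    Fam a b (n + m) (fun e => w e + w' e) := by
  obtain ⟨y, hy, hyw⟩ := h
  obtain ⟨z, hz, hzw⟩ := h'
  refine ⟨Fin.append y z, fun i => ?_, fun e => ?_⟩
  · refine Fin.addCases (fun i => ?_) (fun i => ?_) i
    · rw [Fin.append_left]; exact hy i
    · rw [Fin.append_right]; exact hz i
  · rw [Fin.sum_univ_add]
    simp only [Fin.append_left, Fin.append_right]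
    rw [hyw, hzw]

lemma fam_zero (n : ℕ) : Fam a b n (fun _ => 0) := by
  refine ⟨fun _ _ => 0, fun i c => by simp, fun e => ?_⟩
  simp

lemma Fam.pad {n m : ℕ} {w : E → ℕ} (h : Fam a b n w) (hnm : n ≤ m) : Fam a b m w := by
  have h1 := h.add (fam_zero (a := a) (b := b) (m - n))
  rw [Nat.add_sub_cancel' hnm] at h1
  exact h1.congr (fun e => Nat.add_zero _)

lemma fam_sum {n : ℕ} (w : ℕ → E → ℕ) : ∀ r : ℕ, (∀ j, j < r → Fam a b n (w j)) →
    Fam a b (r * n) (fun e => ∑ j ∈ Finset.range r, w j e) := by
  intro r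
  induction r with
  | zero =>
    intro _
    exact (fam_zero _).congr (fun e => by simp)
  | succ r ih =>
    intro h
    have h1 := (ih (fun j hj => h j (by omega))).add (h r (by omega))
    rw [Nat.succ_mul]
    exact h1.congr (fun e => (Finset.sum_range_succ _ _).symm)

/-- reflection in a flow -/
lemma Fam.reflect {n : ℕ} {w w' : E → ℕ} (h : Fam a b n w) {Z : E → F2} (hZ : IsFlow a b Z)
    (h0 : ∀ e, Z e = 0 → w' e = w e) (h1 : ∀ e, Z e = 1 → w' e + w e = n) : Fam a b n w' := by
  obtain ⟨y, hy, hyw⟩ := h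
  refine ⟨fun i e => y i e + Z e, fun i => isFlow_add (hy i) hZ, fun e => ?_⟩
  show ∑ i, (if y i e + Z e = 1 then 1 else 0) = w' e
  rcases f2_cases (Z e) with hz | hz
  · rw [h0 e hz, ← hyw e]
    apply Finset.sum_congr rfl
    intro i _
    rw [hz, add_zero]
  · have h2 := h1 e hz
    rw [← hyw e] at h2
    have h3 : ∑ i : Fin n, (if y i e + Z e = 1 then 1 else 0) +
        ∑ i : Fin n, (if y i e = 1 then 1 else 0) = n := by
      rw [← Finset.sum_add_distrib]
      have h4 : ∀ i ∈ (univ : Finset (Fin n)), (if y i e + Z e = 1 then 1 else 0) +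
          (if y i e = 1 then 1 else 0) = 1 := by
        intro i _
        rw [hz]
        rcases f2_cases (y i e) with h5 | h5
        · rw [h5]; simp
        · rw [h5, f2_add_self]; simp
      rw [Finset.sum_congr rfl h4]
      simp
    omega

end fam

section flows

variable {W E : Type} [Fintype W] [DecidableEq W] [Fintype E] [DecidableEq E]

/-- transfer from a family with an arbitrary finite index set -/
lemma fam_of_index {a b : E → W} {ι : Type} [Fintype ι] {n : ℕ} (hn : Fintype.card ι = n)
    (y : ι → E → F2) (hy : ∀ i, IsFlow a b (y i)) (w : E → ℕ)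
    (hw : ∀ e, ∑ i, (if y i e = 1 then 1 else 0) = w e) : Fam a b n w := by
  subst hn
  let f := (Fintype.equivFin ι).symm
  refine ⟨fun i => y (f i), fun i => hy _, fun e => ?_⟩
  rw [← hw e]
  exact Equiv.sum_comp f (fun i => if y i e = 1 then 1 else 0)

/-- eight flows covering the edges outside `X` exactly twice -/
lemma fam_two (v : E × Bool → W) (X : Finset E)
    (hX : ∀ B : Finset W, cn (fun e => v (e, false)) (fun e => v (e, true)) (univ \ X) B ≠ 1) :
    Fam (fun e => v (e, false)) (fun e => v (e, true)) 8 (fun e => if e ∈ X then 0 else 2) := by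
  classical
  let v' : E × Bool → W := fun h => if h.1 ∈ X then v (h.1, false) else v h
  obtain ⟨S, hS1, hS2⟩ := exists_double_cover v' (by
    intro B
    have h1 : cn (fun e => v' (e, false)) (fun e => v' (e, true)) univ B =
        cn (fun e => v (e, false)) (fun e => v (e, true)) (univ \ X) B := by
      unfold cn
      congr 1
      ext e
      simp only [Finset.mem_filter, Finset.mem_univ, true_and, Finset.mem_sdiff, v']
      by_cases h : e ∈ X
      · simp [h]
      · simp [h]
    rw [h1]
    exact hX B)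
  refine fam_of_index (ι := T3) (by decide) (fun c e => if c ∈ S e ∧ e ∉ X then 1 else 0) ?_ _ ?_
  · intro c f
    have h1 := (isFl_iff v' _).1 (hS2 c)
    refine Eq.trans ?_ (h1 f)
    apply Finset.sum_congr rfl
    intro e _
    by_cases h : e ∈ X
    · simp only [v', h, if_true]
      rw [f2_add_self, mul_zero, if_neg (by simp), zero_mul]
    · simp only [v', h, if_false]
      congr 1
      simp [h]
  · intro e
    by_cases h : e ∈ X
    · simp [h]
    · have h1 : ∀ c : T3, (if (if c ∈ S e ∧ e ∉ X then (1 : F2) else 0) = 1 then 1 else 0) =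
          if c ∈ S e then 1 else 0 := by
        intro c
        by_cases hc : c ∈ S e <;> simp [h, hc]
      rw [Finset.sum_congr rfl (fun c _ => h1 c), if_neg h, ← hS1 e]
      simp

lemma count7 : ∀ x y z : F2, (x ≠ 0 ∨ y ≠ 0 ∨ z ≠ 0) →
    ∑ t : {t : F2 × F2 × F2 // t ≠ 0}, (if t.1.1 * x + t.1.2.1 * y + t.1.2.2 * z = 1 then 1 else 0)
      = 4 := by
  decide +kernel

/-- seven flows covering the edges outside `X` exactly four times -/
lemma fam_four (a b : E → W) (X : Finset E)
    (hX : ∀ B : Finset W, cn a b (univ \ X) B ≠ 1) :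
    Fam a b 7 (fun e => if e ∈ X then 0 else 4) := by
  classical
  obtain ⟨A, hA, hA0, hAn⟩ := exists_flow8_minus a b X hX
  refine fam_of_index (ι := {t : F2 × F2 × F2 // t ≠ 0}) (by decide +kernel)
    (fun t e => t.1.1 * A 0 e + t.1.2.1 * A 1 e + t.1.2.2 * A 2 e)
    (fun t => isFlow_add (isFlow_add (isFlow_smul _ (hA 0)) (isFlow_smul _ (hA 1)))
      (isFlow_smul _ (hA 2))) _ ?_
  intro e
  by_cases h : e ∈ X
  · simp [h, hA0 _ e h]
  · rw [if_neg h]
    exact count7 _ _ _ (hAn e h)

end flows

section graph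

variable {V E : Type} [Fintype V] [DecidableEq V] [Fintype E] [DecidableEq E]

/-- a family of flows gives a circuit cover -/
lemma Fam.cover (G : MGraph V E) (v : E × Bool → V)
    (hv : ∀ e, G.ends e = s(v (e, false), v (e, true))) {n : ℕ} {w : E → ℕ}
    (h : Fam (fun e => v (e, false)) (fun e => v (e, true)) n w) : InIntCone G w := by
  classical
  obtain ⟨y, hy, hyw⟩ := h
  choose S hS1 hS2 using fun i => G.decompose _ _ rfl (isEven_of_isFlow G v hv (y i) (hy i))
  refine ⟨∑ i, S i, ?_, ?_⟩
  · intro C hC
    rw [Multiset.mem_sum] at hC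
    obtain ⟨i, _, hi⟩ := hC
    exact hS1 i C hi
  · intro e
    rw [countP_sum, ← hyw e]
    apply Finset.sum_congr rfl
    intro i _
    rw [hS2 i e]
    simp

/-- The sharp block. The weights are `c` outside `X`, and even and at most `2 c` on `X`. -/
theorem sharp_block (G : MGraph V E) (v : E × Bool → V)
    (hv : ∀ e, G.ends e = s(v (e, false), v (e, true))) (X : Finset E) (c : ℕ)
    (hc : (c % 4 = 2 ∧ 18 ≤ c) ∨ (c % 4 = 0 ∧ 36 ≤ c)) (w : E → ℕ)
    (hX : ∀ e ∈ X, ∀ f, TC (fun e => v (e, false)) (fun e => v (e, true)) e f → f ∈ X)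
    (hdel : ∀ X' ⊆ X,
      (∀ e ∈ X', ∀ f, TC (fun e => v (e, false)) (fun e => v (e, true)) e f → f ∈ X') →
      ∀ B : Finset V, cn (fun e => v (e, false)) (fun e => v (e, true)) (univ \ X') B ≠ 1)
    (hw1 : ∀ e, e ∉ X → w e = c) (hw2 : ∀ e ∈ X, Even (w e)) (hw3 : ∀ e ∈ X, w e ≤ 2 * c)
    (hw4 : ∀ e ∈ X, ∀ f, TC (fun e => v (e, false)) (fun e => v (e, true)) e f → w f = w e) :
    InIntCone G w := by
  classical
  obtain ⟨β, α, hβα, hcc, hβ⟩ : ∃ β α : ℕ, 4 * β ≤ α ∧ c = 4 * α + 2 * β ∧ (β = 1 ∨ β = 2) := by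
    rcases hc with ⟨h1, h2⟩ | ⟨h1, h2⟩
    · exact ⟨1, (c - 2) / 4, by omega, by omega, Or.inl rfl⟩
    · exact ⟨2, (c - 4) / 4, by omega, by omega, Or.inr rfl⟩
  let u : E → ℕ := fun e => if w e ≤ c then w e else 2 * c - w e
  let t : E → ℕ := fun e => min α (u e / 4)
  let s : E → ℕ := fun e => (u e - 4 * t e) / 2
  have hu : ∀ e ∈ X, u e = 4 * t e + 2 * s e ∧ t e ≤ α ∧ s e ≤ β := by
    intro e he
    have h1 := hw3 e he
    obtain ⟨k, hk⟩ := hw2 e he
    have h2 : u e ≤ c ∧ u e % 2 = 0 := by
      show (if w e ≤ c then w e else 2 * c - w e) ≤ c ∧ (if w e ≤ c then w e else 2 * c - w e) % 2 = 0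
      split_ifs <;> omega
    have h3 : t e = α ∨ t e = u e / 4 := min_choice _ _
    have h4 : t e ≤ α := min_le_left _ _
    have h5 : t e ≤ u e / 4 := min_le_right _ _
    have h6 : s e = (u e - 4 * t e) / 2 := rfl
    refine ⟨by omega, h4, ?_⟩
    rcases h3 with h3 | h3 <;> rcases hβ with h7 | h7 <;> omega
  have hcong : ∀ e ∈ X, ∀ f, TC (fun e => v (e, false)) (fun e => v (e, true)) e f →
      u f = u e := by
    intro e he f hef
    show (if w f ≤ c then w f else 2 * c - w f) = (if w e ≤ c then w e else 2 * c - w e)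
    rw [hw4 e he f hef]
  have hA : ∀ j, j < α → Fam (fun e => v (e, false)) (fun e => v (e, true)) 7
      (fun e => if e ∈ X.filter (fun e => t e ≤ j) then 0 else 4) := by
    intro j _
    apply fam_four
    apply hdel _ (Finset.filter_subset _ _)
    intro e he f hef
    rw [Finset.mem_filter] at he ⊢
    refine ⟨hX e he.1 f hef, ?_⟩
    have h1 := hcong e he.1 f hef
    have h2 : t f = t e := by
      show min α (u f / 4) = min α (u e / 4)
      rw [h1]
    rw [h2]; exact he.2
  have hB : ∀ j, j < β → Fam (fun e => v (e, false)) (fun e => v (e, true)) 8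
      (fun e => if e ∈ X.filter (fun e => s e ≤ j) then 0 else 2) := by
    intro j _
    apply fam_two
    apply hdel _ (Finset.filter_subset _ _)
    intro e he f hef
    rw [Finset.mem_filter] at he ⊢
    refine ⟨hX e he.1 f hef, ?_⟩
    have h1 := hcong e he.1 f hef
    have h2 : s f = s e := by
      show (u f - 4 * min α (u f / 4)) / 2 = (u e - 4 * min α (u e / 4)) / 2
      rw [h1]
    rw [h2]; exact he.2
  have hcnt : ∀ (m k : ℕ) (n : ℕ), k ≤ n →
      ∑ j ∈ Finset.range n, (if k ≤ j then 0 else m) = m * k := by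
    intro m k n hk
    have h1 : ∀ j ∈ Finset.range n, (if k ≤ j then 0 else m) = if j < k then m else 0 := by
      intro j _
      by_cases h : k ≤ j
      · rw [if_pos h, if_neg (by omega)]
      · rw [if_neg h, if_pos (by omega)]
    rw [Finset.sum_congr rfl h1, ← Finset.sum_filter, Finset.sum_const, smul_eq_mul, mul_comm]
    congr 1
    have h7 : (Finset.range n).filter (fun t => t < k) = Finset.range k := by
      ext t
      rw [Finset.mem_filter, Finset.mem_range, Finset.mem_range]
      omega
    rw [h7, Finset.card_range]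
  have hfam := ((fam_sum _ α hA).add (fam_sum _ β hB)).pad (show α * 7 + β * 8 ≤ 2 * c by omega)
  have hfam' : Fam (fun e => v (e, false)) (fun e => v (e, true)) (2 * c)
      (fun e => if e ∈ X then u e else c) := by
    refine hfam.congr (fun e => ?_)
    by_cases he : e ∈ X
    · simp only [Finset.mem_filter, he, true_and, if_true]
      obtain ⟨h1, h2, h3⟩ := hu e he
      rw [hcnt 4 (t e) α h2, hcnt 2 (s e) β h3, h1]
    · simp only [Finset.mem_filter, he, false_and, if_false, Finset.sum_const, Finset.card_range,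
        smul_eq_mul]
      omega
  obtain ⟨Z, hZ, hZF⟩ := exists_flow_on (fun e => v (e, false)) (fun e => v (e, true)) X
    (X.filter (fun e => c < w e)) (cut_even _ _ X _ hX (by
      intro e he f hef
      rw [Finset.mem_filter] at he ⊢
      exact ⟨hX e he.1 f hef, by rw [hw4 e he.1 f hef]; exact he.2⟩) hdel)
  refine (hfam'.reflect (w' := w) hZ ?_ ?_).cover G v hv
  · intro e hz
    by_cases he : e ∈ X
    · have h1 := hZF e he
      rw [hz] at h1
      have h2 : ¬ c < w e := by
        intro h2
        have h7 : e ∈ X.filter (fun e => c < w e) := Finset.mem_filter.2 ⟨he, h2⟩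
        rw [if_pos h7] at h1
        exact zero_ne_one h1
      show w e = if e ∈ X then u e else c
      rw [if_pos he]
      show w e = if w e ≤ c then w e else 2 * c - w e
      rw [if_pos (by omega)]
    · show w e = if e ∈ X then u e else c
      rw [if_neg he, hw1 e he]
  · intro e hz
    by_cases he : e ∈ X
    · have h1 := hZF e he
      rw [hz] at h1
      have h2 : c < w e := by
        by_contra h2
        have h7 : e ∉ X.filter (fun e => c < w e) := fun h => h2 (Finset.mem_filter.1 h).2
        rw [if_neg h7] at h1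
        exact one_ne_zero h1
      have h3 := hw3 e he
      show w e + (if e ∈ X then u e else c) = 2 * c
      rw [if_pos he]
      show w e + (if w e ≤ c then w e else 2 * c - w e) = 2 * c
      rw [if_neg (by omega)]
      omega
    · show w e + (if e ∈ X then u e else c) = 2 * c
      rw [if_neg he, hw1 e he]
      omega

end graph

end Pool.Agent.Helper87S
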