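import Pool.Agent.Helper87S.Fam
import Pool.Agent.TH399.CC.Span
import Pool.Agent.TH399.CC.Pack
import Pool.Agent.N411.CV.Comp

set_option autoImplicit false
set_option linter.unusedSectionVars false

/-!
Circuit covers from families of spanning two-edge-connected subgraphs; graphs with
edge-connected spanning subgraphs; good ranges.
-/

namespace Pool.Agent.Helper87S

open Finset
open Pool.Agent.Helper879.ECD (F2 IsFlow f2_add_self f2_cases cn)
open Pool.Agent.H126R2.CDC (MGraph)
open Pool.Agent.H126R2.NC (TC InCone InLat InIntCone cone_lat_of_intCone bridgeless_of_cone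
  const_of_tc countP_sum f2_ne cr)
open Pool.Agent.TH399.CC (intCone_add intCone_sum odd_part bdry bdry_card exists_classes)
open Pool.Agent.N411.EC (TEC Col Cr cn_eq)
open Pool.Agent.N411.CV (hasCol_eight colouring_bridgeless)

/-- distribution of a total between lower and upper bounds -/
lemma exists_split {ι : Type} [DecidableEq ι] (s : Finset ι) (l u : ι → ℕ) (hlu : ∀ i, l i ≤ u i) :
    ∀ t : ℕ, ∑ i ∈ s, l i ≤ t → t ≤ ∑ i ∈ s, u i →
      ∃ x : ι → ℕ, (∀ i, l i ≤ x i ∧ x i ≤ u i) ∧ ∑ i ∈ s, x i = t := by
  induction s using Finset.induction_on with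
  | empty =>
    intro t h1 h2
    refine ⟨l, fun i => ⟨le_refl _, hlu i⟩, ?_⟩
    rw [Finset.sum_empty] at *
    omega
  | insert i s hi ih =>
    intro t h1 h2
    rw [Finset.sum_insert hi] at h1 h2
    have h3 := hlu i
    -- value at `i`
    obtain ⟨y, hy1, hy2, hy3, hy4, hy5⟩ : ∃ y, l i ≤ y ∧ y ≤ u i ∧ y ≤ t ∧
        ∑ j ∈ s, l j ≤ t - y ∧ t - y ≤ ∑ j ∈ s, u j := by
      by_cases h : t - ∑ j ∈ s, u j ≤ l i
      · exact ⟨l i, le_refl _, h3, by omega, by omega, by omega⟩
      · refine ⟨t - ∑ j ∈ s, u j, by omega, by omega, by omega, ?_, by omega⟩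
        have h4 : ∑ j ∈ s, l j ≤ ∑ j ∈ s, u j := Finset.sum_le_sum (fun j _ => hlu j)
        omega
    obtain ⟨x, hx1, hx2⟩ := ih (t - y) hy4 hy5
    refine ⟨Function.update x i y, fun j => ?_, ?_⟩
    · by_cases hj : j = i
      · subst hj
        rw [Function.update_self]
        exact ⟨hy1, hy2⟩
      · rw [Function.update_of_ne hj]
        exact hx1 j
    · rw [Finset.sum_insert hi, Function.update_self]
      have h5 : ∑ j ∈ s, Function.update x i y j = ∑ j ∈ s, x j := by
        apply Finset.sum_congr rfl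
        intro j hj
        rw [Function.update_of_ne]
        intro h
        exact hi (h ▸ hj)
      rw [h5, hx2]
      omega

section graph

variable {V E : Type} [Fintype V] [DecidableEq V] [Fintype E] [DecidableEq E]

/-- weights `c` on a spanning two-edge-connected subgraph, even and at most `2 c` elsewhere -/
theorem span_even (G : MGraph V E) (H : Finset E) (c : ℕ)
    (hc : (c % 4 = 2 ∧ 18 ≤ c) ∨ (c % 4 = 0 ∧ 36 ≤ c)) (w : E → ℕ)
    (hH : ∀ B : Finset V, B.Nonempty → B ≠ univ → 2 ≤ (bdry G H B).card)
    (hw1 : ∀ e ∈ H, w e = c) (hw2 : ∀ e, Even (w e)) (hw3 : ∀ e, w e ≤ 2 * c) :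
    InIntCone G w := by
  classical
  obtain ⟨v, hv⟩ := G.exists_halves
  set a : E → V := fun e => v (e, false) with ha
  set b : E → V := fun e => v (e, true) with hb
  have hspan : ∀ B : Finset V, ∀ e, cr a b B e → 2 ≤ cn a b H B := by
    intro B e he
    rw [← bdry_card G v hv H B]
    apply hH
    · by_contra h
      rw [Finset.not_nonempty_iff_eq_empty] at h
      apply he
      simp [h]
    · intro h
      apply he
      simp [h]
  have htc : ∀ e, e ∉ H → ∀ f, TC a b e f → f = e := by
    intro e he f hef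
    by_contra hne
    obtain ⟨z, hz⟩ := hef
    have hcr : ∀ h, cr a b (univ.filter (fun w => z w = 1)) h ↔ (h = e ∨ h = f) := by
      intro h
      have h1 : cr a b (univ.filter (fun w => z w = 1)) h ↔ z (a h) + z (b h) = 1 := by
        simp only [cr, Finset.mem_filter, Finset.mem_univ, true_and]
        exact f2_ne
      rw [h1, hz h]
      by_cases h2 : h = e
      · have h3 : ¬ h = f := fun h3 => hne (h3.symm.trans h2)
        simp [h2, Ne.symm hne]
      · by_cases h3 : h = f
        · simp [h3, hne]
        · simp [h2, h3]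
    have h1 := hspan (univ.filter (fun w => z w = 1)) e ((hcr e).2 (Or.inl rfl))
    have h2 : cn a b H (univ.filter (fun w => z w = 1)) ≤ ({f} : Finset E).card := by
      unfold cn
      apply Finset.card_le_card
      intro h hh
      rw [Finset.mem_filter] at hh
      rw [Finset.mem_singleton]
      rcases (hcr h).1 hh.2 with h3 | h3
      · exact absurd (h3 ▸ hh.1) he
      · exact h3
    rw [Finset.card_singleton] at h2
    omega
  have hdel : ∀ X' : Finset E, (∀ e ∈ X', e ∉ H) → ∀ B : Finset V, cn a b (univ \ X') B ≠ 1 := by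
    intro X' hX' B h1
    have h2 : cn a b H B ≤ cn a b (univ \ X') B := by
      unfold cn
      apply Finset.card_le_card
      intro e he
      rw [Finset.mem_filter] at he ⊢
      refine ⟨?_, he.2⟩
      rw [Finset.mem_sdiff]
      exact ⟨Finset.mem_univ _, fun h => hX' e h he.1⟩
    obtain ⟨e, he⟩ := Finset.card_pos.1 (show 0 < ((univ \ X').filter
      (fun e => ¬ (a e ∈ B ↔ b e ∈ B))).card by unfold cn at h1; omega)
    have h3 := hspan B e (Finset.mem_filter.1 he).2
    omega
  refine sharp_block G v hv (univ \ H) c hc w ?_ ?_ ?_ ?_ ?_ ?_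
  · intro e he f hef
    rw [htc e (Finset.mem_sdiff.1 he).2 f hef]
    exact he
  · intro X' hX' _
    exact hdel X' (fun e he => (Finset.mem_sdiff.1 (hX' he)).2)
  · intro e he
    apply hw1
    by_contra h
    exact he (Finset.mem_sdiff.2 ⟨Finset.mem_univ _, h⟩)
  · intro e _
    exact hw2 e
  · intro e _
    exact hw3 e
  · intro e he f hef
    rw [htc e (Finset.mem_sdiff.1 he).2 f hef]

/-- the constants allowed in the blocks -/
def Big (k : ℕ) : Prop := 17 ≤ k ∨ (9 ≤ k ∧ k % 2 = 1)

lemma Big.mod {k : ℕ} (h : Big k) : ((2 * k) % 4 = 2 ∧ 18 ≤ 2 * k) ∨ ((2 * k) % 4 = 0 ∧ 36 ≤ 2 * k) := by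
  unfold Big at h
  omega

/-- Weights between the sum of the constants of the subgraphs containing an edge and this sum plus
twice the sum of the other constants. -/
theorem family_cover (G : MGraph V E) {ι : Type} [Fintype ι] [DecidableEq ι] (H : ι → Finset E)
    (k : ι → ℕ) (p : E → ℕ)
    (hH : ∀ i, ∀ B : Finset V, B.Nonempty → B ≠ univ → 2 ≤ (bdry G (H i) B).card)
    (hk : ∀ i, Big (k i))
    (h1 : ∀ e, ∑ i, (if e ∈ H i then k i else 0) ≤ p e / 2)
    (h2 : ∀ e, p e / 2 ≤ ∑ i, (if e ∈ H i then k i else 2 * k i))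
    (hlat : InLat G p) : InIntCone G p := by
  classical
  have h3 : ∀ e, ∃ x : ι → ℕ, (∀ i, (if e ∈ H i then k i else 0) ≤ x i ∧
      x i ≤ (if e ∈ H i then k i else 2 * k i)) ∧ ∑ i, x i = p e / 2 := fun e =>
    exists_split univ _ _ (fun i => by split_ifs <;> omega) _ (h1 e) (h2 e)
  choose x hx1 hx2 using h3
  have h4 : ∀ i ∈ (univ : Finset ι), InIntCone G (fun e => 2 * x e i) := by
    intro i _
    apply span_even G (H i) (2 * k i) (hk i).mod _ (hH i)
    · intro e he
      have h5 := hx1 e i
      rw [if_pos he, if_pos he] at h5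
      show 2 * x e i = 2 * k i
      omega
    · intro e
      exact even_two_mul _
    · intro e
      have h5 := (hx1 e i).2
      show 2 * x e i ≤ 2 * (2 * k i)
      split_ifs at h5 <;> omega
  refine intCone_add G (intCone_sum G univ _ h4) (odd_part G p hlat) ?_
  intro e
  show p e = ∑ i, 2 * x e i + p e % 2
  rw [← Finset.mul_sum, hx2 e]
  exact (Nat.div_add_mod (p e) 2).symm

/-- the second ends after deleting the edges outside `H` (they become loops) -/
def sb (a b : E → V) (H : Finset E) : E → V := fun e => if e ∈ H then b e else a e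

lemma cn_sb (a b : E → V) (H S : Finset E) (B : Finset V) :
    cn a (sb a b H) S B = cn a b (S ∩ H) B := by
  unfold cn sb
  congr 1
  ext e
  simp only [Finset.mem_filter, Finset.mem_inter]
  by_cases h : e ∈ H <;> simp [h]

/-- deletable sets leave two edges in every cut -/
lemma two_of_del (a b : E → V) (M : Finset E) (B : Finset V) (hB : cn a b univ B ≠ 0)
    (h : ∀ X ⊆ M, cn a b (univ \ X) B ≠ 1) : 2 ≤ cn a b (univ \ M) B := by
  classical
  by_contra hcon
  have h0 : cn a b (univ \ M) B = 0 := by
    have := h M (Finset.Subset.refl M)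
    omega
  obtain ⟨e, he⟩ := Finset.card_pos.1 (Nat.pos_of_ne_zero hB)
  rw [Finset.mem_filter] at he
  have hzero : ∀ f, f ∉ M → (a f ∈ B ↔ b f ∈ B) := by
    intro f hf
    by_contra h1
    unfold cn at h0
    rw [Finset.card_eq_zero, Finset.filter_eq_empty_iff] at h0
    exact h0 (Finset.mem_sdiff.2 ⟨Finset.mem_univ f, hf⟩) h1
  have heM : e ∈ M := by
    by_contra h1
    exact he.2 (hzero e h1)
  apply h (M.erase e) (Finset.erase_subset _ _)
  unfold cn
  rw [Finset.card_eq_one]
  refine ⟨e, ?_⟩
  ext f
  rw [Finset.mem_filter, Finset.mem_singleton, Finset.mem_sdiff, Finset.mem_erase]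
  constructor
  · rintro ⟨⟨_, h1⟩, h2⟩
    by_contra h3
    exact h2 (hzero f (fun h4 => h1 ⟨h3, h4⟩))
  · rintro rfl
    exact ⟨⟨Finset.mem_univ _, fun h1 => h1.1 rfl⟩, he.2⟩

/-- families of classes of edges of `H` whose deletion leaves a two-edge-connected graph -/
theorem class_cover (G : MGraph V E) (H : Finset E) {ι : Type} [Fintype ι] [DecidableEq ι]
    (M : ι → Finset E) (m k : ℕ) (hk : Big k) (p : E → ℕ)
    (hM : ∀ i, ∀ B : Finset V, B.Nonempty → B ≠ univ → 2 ≤ (bdry G (H \ M i) B).card)
    (hm : ∀ e ∈ H, m ≤ (univ.filter (fun i => e ∈ M i)).card)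
    (h1 : ∀ e ∈ H, (Fintype.card ι - m) * k ≤ p e / 2 ∧ p e / 2 ≤ (Fintype.card ι + m) * k)
    (h2 : ∀ e, e ∉ H → p e / 2 ≤ 2 * Fintype.card ι * k)
    (hlat : InLat G p) : InIntCone G p := by
  classical
  apply family_cover G (fun i => H \ M i) (fun _ => k) p hM (fun _ => hk) _ _ hlat
  · intro e
    by_cases he : e ∈ H
    · refine le_trans ?_ (h1 e he).1
      rw [← Finset.sum_filter, Finset.sum_const, smul_eq_mul]
      apply Nat.mul_le_mul_right
      have h3 : (univ.filter (fun i => e ∈ H \ M i)).card +
          (univ.filter (fun i => e ∈ M i)).card = Fintype.card ι := by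
        rw [← Finset.card_univ, ← Finset.card_filter_add_card_filter_not (s := (univ : Finset ι))
          (fun i => e ∈ H \ M i)]
        congr 2
        ext i
        simp [he]
      have h4 := hm e he
      omega
    · have h3 : ∀ i : ι, ¬ e ∈ H \ M i := fun i h => he (Finset.mem_sdiff.1 h).1
      simp [h3]
  · intro e
    by_cases he : e ∈ H
    · refine le_trans (h1 e he).2 ?_
      have h4 := hm e he
      have h5 : ∑ i, (if e ∈ H \ M i then k else 2 * k) =
          (Fintype.card ι + (univ.filter (fun i => e ∈ M i)).card) * k := by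
        have h6 : ∀ i ∈ (univ : Finset ι), (if e ∈ H \ M i then k else 2 * k) =
            k + (if e ∈ M i then k else 0) := by
          intro i _
          by_cases hi : e ∈ M i
          · rw [if_neg (fun h => (Finset.mem_sdiff.1 h).2 hi), if_pos hi]
            ring
          · rw [if_pos (Finset.mem_sdiff.2 ⟨he, hi⟩), if_neg hi]
            ring
        rw [Finset.sum_congr rfl h6, Finset.sum_add_distrib, Finset.sum_const, ← Finset.sum_filter,
          Finset.sum_const, smul_eq_mul, smul_eq_mul, Finset.card_univ]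
        ring
      rw [h5]
      exact Nat.mul_le_mul_right _ (Nat.add_le_add_left h4 _)
    · refine le_trans (h2 e he) ?_
      have h3 : ∀ i : ι, ¬ e ∈ H \ M i := fun i h => he (Finset.mem_sdiff.1 h).1
      simp only [h3, if_false, Finset.sum_const, Finset.card_univ, smul_eq_mul]
      apply le_of_eq
      ring

/-- spanning `K`-edge-connected subgraphs, `K ≥ 4` -/
theorem large_span (G : MGraph V E) (H : Finset E) (K k : ℕ) (hK : 4 ≤ K) (hk : Big k) (p : E → ℕ)
    (hH : ∀ B : Finset V, B.Nonempty → B ≠ univ → K ≤ (bdry G H B).card)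
    (h1 : ∀ e ∈ H, (K + 2) * k ≤ p e / 2 ∧ p e / 2 ≤ (3 * K - 2) * k)
    (h2 : ∀ e, e ∉ H → p e / 2 ≤ 4 * K * k) (hlat : InLat G p) : InIntCone G p := by
  classical
  obtain ⟨v, hv⟩ := G.exists_halves
  set a : E → V := fun e => v (e, false) with ha
  set b : E → V := fun e => v (e, true) with hb
  have hbd : ∀ B : Finset V, cn a (sb a b H) univ B = (bdry G H B).card := by
    intro B
    rw [cn_sb, Finset.univ_inter, bdry_card G v hv]
  have h4 : ∀ X : Finset V, cn a (sb a b H) univ X = 0 ∨ K ≤ cn a (sb a b H) univ X := by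
    intro X
    by_cases hX : X.Nonempty
    · by_cases hX2 : X = univ
      · left
        subst hX2
        simp [cn]
      · right
        rw [hbd]
        exact hH X hX hX2
    · left
      rw [Finset.not_nonempty_iff_eq_empty] at hX
      subst hX
      simp [cn]
  obtain ⟨T, c, hT, hc⟩ := exists_classes K hK a (sb a b H) h4
  apply class_cover G H (ι := Fin K × Bool)
    (fun i => univ.filter (fun e => e ∉ T i.1 ∧ c i.1 e = i.2)) (K - 2) k hk p _ _ _ _ hlat
  · intro i B hB hB2
    rw [bdry_card G v hv]
    have h5 := two_of_del a (sb a b H) (univ.filter (fun e => e ∉ T i.1 ∧ c i.1 e = i.2)) B (by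
      rw [hbd]
      have := hH B hB hB2
      omega) (by
      intro X hX
      apply hc i.1 i.2 X
      intro e he
      exact (Finset.mem_filter.1 (hX he)).2)
    rw [cn_sb] at h5
    refine h5.trans (le_of_eq ?_)
    congr 1
    ext e
    simp only [Finset.mem_inter, Finset.mem_sdiff, Finset.mem_univ, true_and]
    tauto
  · intro e _
    have h5 := hT e
    have h6 : (univ.filter (fun i => e ∉ T i)).card ≤
        (univ.filter (fun i : Fin K × Bool =>
          e ∈ univ.filter (fun e => e ∉ T i.1 ∧ c i.1 e = i.2))).card := by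
      apply Finset.card_le_card_of_injOn (fun i => (i, c i e))
      · intro i hi
        have h7 := (Finset.mem_filter.1 (Finset.mem_coe.1 hi)).2
        simp only [Finset.coe_filter, Set.mem_setOf_eq, Finset.mem_univ, Finset.mem_filter,
          true_and]
        exact ⟨h7, trivial⟩
      · intro i _ j _ hij
        exact (Prod.mk.inj hij).1
    omega
  · intro e he
    have h5 := h1 e he
    have h6 : Fintype.card (Fin K × Bool) = 2 * K := by simp [mul_comm]
    rw [h6]
    rw [show 2 * K - (K - 2) = K + 2 by omega, show 2 * K + (K - 2) = 3 * K - 2 by omega]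
    exact h5
  · intro e he
    have h5 := h2 e he
    have h6 : Fintype.card (Fin K × Bool) = 2 * K := by simp [mul_comm]
    rw [h6]
    rw [show 2 * (2 * K) * k = 4 * K * k by ring]
    exact h5

/-- spanning 3-edge-connected subgraphs -/
theorem three_span (G : MGraph V E) (H : Finset E) (k : ℕ) (hk : Big k) (p : E → ℕ)
    (hH : ∀ B : Finset V, B.Nonempty → B ≠ univ → 3 ≤ (bdry G H B).card)
    (h1 : ∀ e ∈ H, 7 * k ≤ p e / 2 ∧ p e / 2 ≤ 9 * k)
    (h2 : ∀ e, e ∉ H → p e / 2 ≤ 16 * k) (hlat : InLat G p) : InIntCone G p := by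
  classical
  obtain ⟨v, hv⟩ := G.exists_halves
  set a : E → V := fun e => v (e, false) with ha
  set b : E → V := fun e => v (e, true) with hb
  have hbd : ∀ B : Finset V, cn a (sb a b H) univ B = (bdry G H B).card := by
    intro B
    rw [cn_sb, Finset.univ_inter, bdry_card G v hv]
  obtain ⟨col, hcol⟩ := hasCol_eight V E a (sb a b H) (by
    intro B hB hB2
    rw [hbd]
    exact hH B hB hB2)
  apply class_cover G H (ι := Bool ⊕ (Fin 3 ⊕ Fin 3))
    (fun i => univ.filter (fun e => col e = i)) 1 k hk p _ _ _ _ hlat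
  · intro i B hB hB2
    rw [bdry_card G v hv]
    obtain ⟨e, f, hef, he, hf, h5, h6⟩ := hcol i B hB hB2
    have h7 : ({e, f} : Finset E) ⊆
        (H \ univ.filter (fun e => col e = i)).filter (fun e => ¬ (a e ∈ B ↔ b e ∈ B)) := by
      have h8 : ∀ e, col e ≠ i → Cr a (sb a b H) B e →
          e ∈ (H \ univ.filter (fun e => col e = i)).filter (fun e => ¬ (a e ∈ B ↔ b e ∈ B)) := by
        intro e h9 h10
        by_cases h11 : e ∈ H
        · rw [Finset.mem_filter, Finset.mem_sdiff, Finset.mem_filter]
          refine ⟨⟨h11, fun h => h9 h.2⟩, ?_⟩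
          unfold Cr sb at h10
          rw [if_pos h11] at h10
          exact h10
        · exfalso
          unfold Cr sb at h10
          rw [if_neg h11] at h10
          exact h10 Iff.rfl
      intro x hx
      rw [Finset.mem_insert, Finset.mem_singleton] at hx
      rcases hx with rfl | rfl
      · exact h8 _ he h5
      · exact h8 _ hf h6
    have h9 := Finset.card_le_card h7
    rw [Finset.card_pair hef] at h9
    exact h9
  · intro e _
    rw [Nat.one_le_iff_ne_zero]
    have h5 : col e ∈ univ.filter (fun i => e ∈ univ.filter (fun e => col e = i)) := by simp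
    exact Finset.card_ne_zero_of_mem h5
  · intro e he
    have h5 := h1 e he
    simpa using h5
  · intro e he
    have h5 := h2 e he
    simpa using h5

/-- the interval between `14 k` and `18 k + 1` is a good range -/
theorem good_range (G : MGraph V E) (k : ℕ) (hk : Big k) (p : E → ℕ)
    (h1 : ∀ e, 14 * k ≤ p e ∧ p e ≤ 18 * k + 1) : InIntCone G p ↔ InCone G p ∧ InLat G p := by
  classical
  refine ⟨cone_lat_of_intCone G p, ?_⟩
  rintro ⟨hcone, hlat⟩
  obtain ⟨v, hv⟩ := G.exists_halves
  have hk9 : 9 ≤ k := by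
    unfold Big at hk
    omega
  have hbr := bridgeless_of_cone G p hcone (fun e => by have := h1 e; omega)
  obtain ⟨col, hcol1, hcol2⟩ := colouring_bridgeless hasCol_eight (fun e => v (e, false))
    (fun e => v (e, true)) (G.no_one_cut hbr v hv)
  have h3 : ∀ γ ∈ (univ : Finset (Bool ⊕ (Fin 3 ⊕ Fin 3))), InIntCone G (fun e =>
      if col e = γ then 2 * (p e / 2) - 14 * k else 2 * k) := by
    intro γ _
    apply sharp_block G v hv (univ.filter (fun e => col e = γ)) (2 * k) hk.mod
    · intro e he f hef
      rw [Finset.mem_filter] at he ⊢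
      exact ⟨Finset.mem_univ _, by rw [← hcol1 e f hef]; exact he.2⟩
    · intro X' hX' hcl B
      refine hcol2 X' γ ?_ hcl B
      intro e he
      exact (Finset.mem_filter.1 (hX' he)).2
    · intro e he
      rw [if_neg (fun h => he (Finset.mem_filter.2 ⟨Finset.mem_univ _, h⟩))]
    · intro e he
      rw [if_pos (Finset.mem_filter.1 he).2]
      exact ⟨p e / 2 - 7 * k, by omega⟩
    · intro e he
      rw [if_pos (Finset.mem_filter.1 he).2]
      have := h1 e
      omega
    · intro e he f hef
      have h4 := (Finset.mem_filter.1 he).2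
      rw [if_pos h4, if_pos ((hcol1 e f hef).symm.trans h4), const_of_tc G v hv p hcone hef]
  refine intCone_add G (intCone_sum G univ _ h3) (odd_part G p hlat) ?_
  intro e
  have h4 : ∑ γ : Bool ⊕ (Fin 3 ⊕ Fin 3), (if col e = γ then 2 * (p e / 2) - 14 * k else 2 * k) +
      2 * k = (2 * (p e / 2) - 14 * k) + 16 * k := by
    have h5 : ∀ γ ∈ (univ : Finset (Bool ⊕ (Fin 3 ⊕ Fin 3))),
        (if col e = γ then 2 * (p e / 2) - 14 * k else 2 * k) + (if col e = γ then 2 * k else 0) =
        2 * k + (if col e = γ then 2 * (p e / 2) - 14 * k else 0) := by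
      intro γ _
      by_cases h : col e = γ
      · simp only [h, if_true]; omega
      · simp only [h, if_false]
    have h6 := Finset.sum_congr rfl h5
    rw [Finset.sum_add_distrib, Finset.sum_add_distrib, Finset.sum_ite_eq, Finset.sum_ite_eq] at h6
    simp only [Finset.mem_univ, if_true, Finset.sum_const, Finset.card_univ, Fintype.card_sum,
      Fintype.card_bool, Fintype.card_fin, smul_eq_mul] at h6
    omega
  have h5 := h1 e
  have h6 := Nat.div_add_mod (p e) 2
  show p e = ∑ γ : Bool ⊕ (Fin 3 ⊕ Fin 3),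
    (if col e = γ then 2 * (p e / 2) - 14 * k else 2 * k) + p e % 2
  omega

end graph

end Pool.Agent.Helper87S
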